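import Mathlib

/-!
# The bound is monotone in the list of sizes
-/

set_option autoImplicit false

open Finset MvPolynomial Filter

namespace Pool.Agent.L5helper59.ZT

/-- L11 -/
theorem large_append (m : ℕ) (s'' s' : List ℕ)
    (H : ∀ t : List (ℕ × ℕ), (∀ a ∈ t, 1 ≤ a.2) → t.map Prod.fst = s' →
      ((m : ℝ) / 2 ^ 14) ^ (m ^ 2) ≤
        (t.map fun a => (a.2 : ℝ) ^ (m ^ 2) * (1 + 1 / (a.2 : ℝ)) ^ (2 ^ 21 * a.1)).prod)
    (t : List (ℕ × ℕ)) (ht : ∀ a ∈ t, 1 ≤ a.2) (hts : t.map Prod.fst = s'' ++ s') :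
    ((m : ℝ) / 2 ^ 14) ^ (m ^ 2) ≤
      (t.map fun a => (a.2 : ℝ) ^ (m ^ 2) * (1 + 1 / (a.2 : ℝ)) ^ (2 ^ 21 * a.1)).prod := by
  obtain ⟨t1, t2, rfl, h1, h2⟩ := List.map_eq_append_iff.mp hts
  rw [List.map_append, List.prod_append]
  have ha : (1 : ℝ) ≤
      (t1.map fun a => (a.2 : ℝ) ^ (m ^ 2) * (1 + 1 / (a.2 : ℝ)) ^ (2 ^ 21 * a.1)).prod := by
    have h3 : ∀ a ∈ t1, 1 ≤ a.2 := fun a h => ht a (List.mem_append_left _ h)
    clear hts h1 ht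
    induction t1 with
    | nil => simp
    | cons a t ih =>
      rw [List.map_cons, List.prod_cons]
      have h4 : (1 : ℝ) ≤ (a.2 : ℝ) := by exact_mod_cast h3 a (by simp)
      have h5 : (1 : ℝ) ≤ (a.2 : ℝ) ^ (m ^ 2) := one_le_pow₀ h4
      have h6 : (1 : ℝ) ≤ (1 + 1 / (a.2 : ℝ)) ^ (2 ^ 21 * a.1) := by
        apply one_le_pow₀
        have : 0 ≤ 1 / (a.2 : ℝ) := by positivity
        linarith
      have h7 := ih fun b hb => h3 b (List.mem_cons_of_mem _ hb)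
      exact one_le_mul_of_one_le_of_one_le (one_le_mul_of_one_le_of_one_le h5 h6) h7
  have hb := H t2 (fun a h => ht a (List.mem_append_right _ h)) h2
  have hc : (0 : ℝ) ≤ ((m : ℝ) / 2 ^ 14) ^ (m ^ 2) := by positivity
  calc ((m : ℝ) / 2 ^ 14) ^ (m ^ 2) ≤ _ := hb
    _ ≤ _ := le_mul_of_one_le_left (hc.trans hb) ha

end Pool.Agent.L5helper59.ZT
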